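import Pool.Agent.W648.UN.Stm

/-!
# Landsberg unicorn, sub-task UN-HOL: holomorphic dependence of `Ups`, `Tau` on parameters
-/

set_option autoImplicit false

open MeasureTheory Set Filter Topology
open scoped ContDiff

noncomputable section

namespace Pool.Agent.W29.UN.Hol

open Pool.Agent.W648.UN

/-- holomorphic parameter integral -/
lemma hol_int {α : Type*} [MeasurableSpace α] {μ : Measure α} {E : Type*}
    [NormedAddCommGroup E] [NormedSpace ℂ E]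
    {U : Set ℂ} (hU : IsOpen U) {F : ℂ → α → E} {g : α → ℝ}
    (hm : ∀ z ∈ U, AEStronglyMeasurable (F z) μ)
    (hd : ∀ᵐ s ∂μ, DifferentiableOn ℂ (fun z => F z s) U)
    (hb : ∀ᵐ s ∂μ, ∀ z ∈ U, ‖F z s‖ ≤ g s) (hg : Integrable g μ) :
    DifferentiableOn ℂ (fun z => ∫ s, F z s ∂μ) U := by
  intro z0 hz0
  obtain ⟨ε, hε, hεU⟩ := Metric.isOpen_iff.1 hU z0 hz0
  set r : ℝ := ε / 2 with hr
  have hr0 : 0 < r := by positivity
  have hcb : ∀ z ∈ Metric.ball z0 r, Metric.closedBall z r ⊆ U := by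
    intro z hz w hw
    apply hεU
    rw [Metric.mem_ball] at hz ⊢
    rw [Metric.mem_closedBall] at hw
    have := dist_triangle w z z0
    linarith
  have hbU : Metric.ball z0 r ⊆ U := fun z hz => hcb z hz (Metric.mem_closedBall_self hr0.le)
  have hmeas : AEStronglyMeasurable (fun s => deriv (fun z => F z s) z0) μ := by
    have hseq : Tendsto (fun n : ℕ => z0 + ((r / ((n : ℝ) + 2) : ℝ) : ℂ)) atTop (𝓝[≠] z0) := by
      rw [tendsto_nhdsWithin_iff]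
      constructor
      · have h1 : Tendsto (fun n : ℕ => r / ((n : ℝ) + 2)) atTop (𝓝 0) := by
          apply Tendsto.const_div_atTop
          exact tendsto_atTop_add_const_right _ _ tendsto_natCast_atTop_atTop
        have h2 : Tendsto (fun n : ℕ => ((r / ((n : ℝ) + 2) : ℝ) : ℂ)) atTop (𝓝 ((0 : ℝ) : ℂ)) :=
          (Complex.continuous_ofReal.tendsto 0).comp h1
        have h3 := h2.const_add z0
        simpa using h3
      · filter_upwards with n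
        simp only [mem_compl_iff, mem_singleton_iff, add_eq_left, Complex.ofReal_eq_zero]
        positivity
    refine aestronglyMeasurable_of_tendsto_ae (u := atTop)
      (f := fun (n : ℕ) s => slope (fun z => F z s) z0 (z0 + ((r / ((n : ℝ) + 2) : ℝ) : ℂ)))
      ?_ ?_
    · intro n
      have hin : z0 + ((r / ((n : ℝ) + 2) : ℝ) : ℂ) ∈ U := by
        apply hbU
        rw [Metric.mem_ball, dist_eq_norm]
        simp only [add_sub_cancel_left, Complex.norm_real, Real.norm_eq_abs]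
        rw [abs_of_pos (by positivity), div_lt_iff₀ (by positivity)]
        nlinarith [Nat.cast_nonneg (α := ℝ) n]
      simp only [slope_def_module]
      exact ((hm _ hin).sub (hm _ hz0)).const_smul _
    · filter_upwards [hd] with s hs
      have h1 : HasDerivAt (fun z => F z s) (deriv (fun z => F z s) z0) z0 :=
        (hs.differentiableAt (hU.mem_nhds hz0)).hasDerivAt
      exact h1.tendsto_slope.comp hseq
  have key := hasDerivAt_integral_of_dominated_loc_of_deriv_le (μ := μ) (F := F) (x₀ := z0)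
    (s := Metric.ball z0 r) (bound := fun s => g s / r)
    (F' := fun z s => deriv (fun z => F z s) z) (Metric.ball_mem_nhds z0 hr0)
    (by filter_upwards [hU.mem_nhds hz0] with z hz using hm z hz)
    (hg.mono' (hm z0 hz0) (by filter_upwards [hb] with s hs using hs z0 hz0))
    hmeas
    (by
      filter_upwards [hd, hb] with s hs hs2 z hz
      apply Complex.norm_deriv_le_of_forall_mem_sphere_norm_le hr0
      · exact hs.diffContOnCl_ball (hcb z hz)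
      · intro w hw
        exact hs2 w (hcb z hz (Metric.sphere_subset_closedBall hw)))
    (hg.div_const r)
    (by
      filter_upwards [hd] with s hs z hz
      exact (hs.differentiableAt (hU.mem_nhds (hbU hz))).hasDerivAt)
  exact key.2.differentiableAt.differentiableWithinAt

/-- data of a kernel operator, for one parameter -/
structure Ker {A : Type} [NormedCommRing A] [NormedAlgebra ℂ A]
    (H : ℝ → A) (h : ℝ → ℝ) (γ κ : ℝ → ℂ) : Prop where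
  mH : AEStronglyMeasurable H (volume.restrict (Ioo (0 : ℝ) 1))
  bH : ∀ s ∈ Ioo (0 : ℝ) 1, ‖H s‖ ≤ h s
  ih : IntegrableOn (fun s : ℝ => h s * (1 - s) ^ (-(3 / 4) : ℝ)) (Ioo (0 : ℝ) 1)
  lh : ∫ s in Ioo (0 : ℝ) 1, h s * (1 - s) ^ (-(3 / 4) : ℝ) ≤ 1 / 20
  cγ : ContinuousOn γ (Ico (0 : ℝ) 1)
  cκ : ContinuousOn κ (Ico (0 : ℝ) 1)
  γ0 : γ 0 ≠ 0
  bk : ∀ x ∈ Ico (0 : ℝ) 1, ∀ s ∈ Ico x 1, ‖γ x * κ s‖ ≤ (6 / 5) * (1 - s) ^ (-(3 / 4) : ℝ)

variable {A : Type} [NormedCommRing A] [NormedAlgebra ℂ A]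

lemma Ker.hpos {H : ℝ → A} {h : ℝ → ℝ} {γ κ : ℝ → ℂ} (K : Ker H h γ κ) {s : ℝ}
    (hs : s ∈ Ioo (0 : ℝ) 1) : 0 ≤ h s := (norm_nonneg _).trans (K.bH s hs)

lemma rpow_pos' {s : ℝ} (hs : s < 1) : 0 < (1 - s) ^ (-(3 / 4) : ℝ) :=
  Real.rpow_pos_of_pos (by linarith) _

lemma Ker.bdpt {H : ℝ → A} {h : ℝ → ℝ} {γ κ : ℝ → ℂ} (K : Ker H h γ κ) {x : ℝ}
    (hx : x ∈ Ico (0 : ℝ) 1) {g : ℝ → A} {G : ℝ} (hG : ∀ s ∈ Ico (0 : ℝ) 1, ‖g s‖ ≤ G)
    {s : ℝ} (hs : s ∈ Ioo x 1) :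
    ‖(γ x * κ s) • (H s * g s)‖ ≤ (6 / 5) * G * (h s * (1 - s) ^ (-(3 / 4) : ℝ)) := by
  have hs0 : s ∈ Ioo (0 : ℝ) 1 := ⟨lt_of_le_of_lt hx.1 hs.1, hs.2⟩
  have h1 := K.bk x hx s ⟨hs.1.le, hs.2⟩
  have h2 := K.bH s hs0
  have h3 := hG s ⟨hs0.1.le, hs0.2⟩
  have h4 := K.hpos hs0
  have h5 := rpow_pos' hs.2
  calc ‖(γ x * κ s) • (H s * g s)‖ ≤ ‖γ x * κ s‖ * (‖H s‖ * ‖g s‖) := by
        rw [norm_smul]
        gcongr
        exact norm_mul_le _ _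
    _ ≤ ((6 / 5) * (1 - s) ^ (-(3 / 4) : ℝ)) * (h s * G) := by gcongr
    _ = _ := by ring

lemma ioo_ioc (x : ℝ) : (volume.restrict (Ioc x 1) : Measure ℝ) = volume.restrict (Ioo x 1) :=
  (restrict_Ioo_eq_restrict_Ioc (μ := volume)).symm

lemma Ker.aesm {H : ℝ → A} {h : ℝ → ℝ} {γ κ : ℝ → ℂ} (K : Ker H h γ κ) {x : ℝ}
    (hx : x ∈ Ico (0 : ℝ) 1) {g : ℝ → A} (hg : ContinuousOn g (Ico (0 : ℝ) 1)) :
    AEStronglyMeasurable (fun s => (γ x * κ s) • (H s * g s)) (volume.restrict (Ioo x 1)) := by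
  have hsub : Ioo x 1 ⊆ Ioo (0 : ℝ) 1 := Ioo_subset_Ioo_left hx.1
  have hsub2 : Ioo x 1 ⊆ Ico (0 : ℝ) 1 := hsub.trans Ioo_subset_Ico_self
  have h1 : AEStronglyMeasurable H (volume.restrict (Ioo x 1)) :=
    K.mH.mono_measure (Measure.restrict_mono hsub le_rfl)
  have h2 : AEStronglyMeasurable g (volume.restrict (Ioo x 1)) :=
    (hg.mono hsub2).aestronglyMeasurable measurableSet_Ioo
  have h3 : AEStronglyMeasurable κ (volume.restrict (Ioo x 1)) :=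
    (K.cκ.mono hsub2).aestronglyMeasurable measurableSet_Ioo
  exact (h3.const_mul _).smul (h1.mul h2)

lemma Ker.gint {H : ℝ → A} {h : ℝ → ℝ} {γ κ : ℝ → ℂ} (K : Ker H h γ κ) {x : ℝ}
    (hx : x ∈ Ico (0 : ℝ) 1) (C : ℝ) :
    IntegrableOn (fun s : ℝ => C * (h s * (1 - s) ^ (-(3 / 4) : ℝ))) (Ioo x 1) :=
  (K.ih.mono_set (Ioo_subset_Ioo_left hx.1)).const_mul C

lemma Ker.int {H : ℝ → A} {h : ℝ → ℝ} {γ κ : ℝ → ℂ} (K : Ker H h γ κ) {x : ℝ}
    (hx : x ∈ Ico (0 : ℝ) 1) {g : ℝ → A} (hg : ContinuousOn g (Ico (0 : ℝ) 1)) {G : ℝ}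
    (hG : ∀ s ∈ Ico (0 : ℝ) 1, ‖g s‖ ≤ G) :
    IntegrableOn (fun s => (γ x * κ s) • (H s * g s)) (Ioo x 1) := by
  refine (K.gint hx ((6 / 5) * G)).mono' (K.aesm hx hg) ?_
  filter_upwards [ae_restrict_mem measurableSet_Ioo] with s hs
  exact K.bdpt hx hG hs

lemma Ker.bd {H : ℝ → A} {h : ℝ → ℝ} {γ κ : ℝ → ℂ} (K : Ker H h γ κ) {x : ℝ}
    (hx : x ∈ Ico (0 : ℝ) 1) {g : ℝ → A} {G : ℝ} (hG : ∀ s ∈ Ico (0 : ℝ) 1, ‖g s‖ ≤ G) :
    ‖∫ s in Ioo x 1, (γ x * κ s) • (H s * g s)‖ ≤ (3 / 50) * G := by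
  have hG0 : 0 ≤ G := (norm_nonneg _).trans (hG 0 ⟨le_rfl, by norm_num⟩)
  have h1 : ‖∫ s in Ioo x 1, (γ x * κ s) • (H s * g s)‖ ≤
      ∫ s in Ioo x 1, (6 / 5) * G * (h s * (1 - s) ^ (-(3 / 4) : ℝ)) := by
    refine norm_integral_le_of_norm_le (K.gint hx ((6 / 5) * G)) ?_
    filter_upwards [ae_restrict_mem measurableSet_Ioo] with s hs
    exact K.bdpt hx hG hs
  have h2 : (∫ s in Ioo x 1, (6 / 5) * G * (h s * (1 - s) ^ (-(3 / 4) : ℝ))) ≤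
      ∫ s in Ioo (0 : ℝ) 1, (6 / 5) * G * (h s * (1 - s) ^ (-(3 / 4) : ℝ)) := by
    refine setIntegral_mono_set (K.gint ⟨le_rfl, by norm_num⟩ _) ?_
      (Ioo_subset_Ioo_left hx.1).eventuallyLE
    filter_upwards [ae_restrict_mem measurableSet_Ioo] with s hs
    have := K.hpos hs
    have := rpow_pos' hs.2
    simp only [Pi.zero_apply]
    positivity
  have h3 : (∫ s in Ioo (0 : ℝ) 1, (6 / 5) * G * (h s * (1 - s) ^ (-(3 / 4) : ℝ))) ≤
      (6 / 5) * G * (1 / 20) := by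
    rw [integral_const_mul]
    exact mul_le_mul_of_nonneg_left K.lh (by positivity)
  linarith

/-- the operator -/
def J (H : ℝ → A) (γ κ : ℝ → ℂ) (g : ℝ → A) (x : ℝ) : A :=
  γ x • ∫ s in x..1, κ s • (H s * g s)

lemma J_eq (H : ℝ → A) (γ κ : ℝ → ℂ) (g : ℝ → A) {x : ℝ} (hx : x ∈ Ico (0 : ℝ) 1) :
    J H γ κ g x = ∫ s in Ioo x 1, (γ x * κ s) • (H s * g s) := by
  unfold J
  rw [intervalIntegral.integral_of_le hx.2.le, ioo_ioc, ← integral_smul]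
  simp only [mul_smul]

lemma Ker.Jbd {H : ℝ → A} {h : ℝ → ℝ} {γ κ : ℝ → ℂ} (K : Ker H h γ κ) {x : ℝ}
    (hx : x ∈ Ico (0 : ℝ) 1) {g : ℝ → A} {G : ℝ} (hG : ∀ s ∈ Ico (0 : ℝ) 1, ‖g s‖ ≤ G) :
    ‖J H γ κ g x‖ ≤ (3 / 50) * G := by
  rw [J_eq H γ κ g hx]; exact K.bd hx hG

lemma Ker.Jsub {H : ℝ → A} {h : ℝ → ℝ} {γ κ : ℝ → ℂ} (K : Ker H h γ κ) {x : ℝ}
    (hx : x ∈ Ico (0 : ℝ) 1) {g g' : ℝ → A} (hg : ContinuousOn g (Ico (0 : ℝ) 1))
    (hg' : ContinuousOn g' (Ico (0 : ℝ) 1)) {G : ℝ}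
    (hG : ∀ s ∈ Ico (0 : ℝ) 1, ‖g s‖ ≤ G) (hG' : ∀ s ∈ Ico (0 : ℝ) 1, ‖g' s‖ ≤ G) {c : ℝ}
    (hc : ∀ s ∈ Ico (0 : ℝ) 1, ‖g s - g' s‖ ≤ c) :
    ‖J H γ κ g x - J H γ κ g' x‖ ≤ (3 / 50) * c := by
  rw [J_eq H γ κ g hx, J_eq H γ κ g' hx, ← integral_sub (K.int hx hg hG) (K.int hx hg' hG')]
  have : (fun s => (γ x * κ s) • (H s * g s) - (γ x * κ s) • (H s * g' s)) =
      fun s => (γ x * κ s) • (H s * (g s - g' s)) := by
    funext s
    rw [mul_sub, smul_sub]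
  rw [this]
  exact K.bd hx (g := fun s => g s - g' s) hc

lemma Ker.Jcont {H : ℝ → A} {h : ℝ → ℝ} {γ κ : ℝ → ℂ} (K : Ker H h γ κ)
    {g : ℝ → A} (hg : ContinuousOn g (Ico (0 : ℝ) 1)) {G : ℝ}
    (hG : ∀ s ∈ Ico (0 : ℝ) 1, ‖g s‖ ≤ G) : ContinuousOn (J H γ κ g) (Ico (0 : ℝ) 1) := by
  have h0 : (0 : ℝ) ∈ Ico (0 : ℝ) 1 := ⟨le_rfl, by norm_num⟩
  have h1 := K.int h0 hg hG
  have h2 : IntegrableOn (fun s => κ s • (H s * g s)) (Ioo (0 : ℝ) 1) := by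
    have h3 := h1.smul (γ 0)⁻¹
    refine h3.congr ?_
    filter_upwards with s
    simp only [Pi.smul_apply]
    rw [← mul_smul, ← mul_assoc, inv_mul_cancel₀ K.γ0, one_mul]
  have h4 : IntegrableOn (fun s => κ s • (H s * g s)) (uIcc (0 : ℝ) 1) := by
    rw [uIcc_of_le zero_le_one, integrableOn_Icc_iff_integrableOn_Ioo]
    exact h2
  have h5 := intervalIntegral.continuousOn_primitive_interval_left h4
  rw [uIcc_of_le zero_le_one] at h5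
  exact K.cγ.smul (h5.mono Ico_subset_Icc_self)

/-- the fixed point map -/
def Phi (H : ℝ → A) (γ κ : ℝ → ℂ) (m : ℝ → A) (a : ℂ) (g : ℝ → A) (x : ℝ) : A :=
  1 + J H γ κ (fun s => m s * g s) x - a • (g x - 1) ^ 2

omit [NormedAlgebra ℂ A] in
lemma gbd [NormOneClass A] {g : A} (h : ‖g - 1‖ ≤ 1 / 4) : ‖g‖ ≤ 5 / 4 := by
  have h1 : g = 1 + (g - 1) := by ring
  rw [h1]
  calc ‖1 + (g - 1)‖ ≤ ‖(1 : A)‖ + ‖g - 1‖ := norm_add_le _ _
    _ ≤ 5 / 4 := by rw [norm_one]; linarith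

omit [NormedAlgebra ℂ A] in
lemma mgbd [NormOneClass A] {m g : A} (hm : ‖m‖ ≤ 4 / 3) (h : ‖g - 1‖ ≤ 1 / 4) :
    ‖m * g‖ ≤ 5 / 3 := by
  have h2 := gbd h
  calc ‖m * g‖ ≤ ‖m‖ * ‖g‖ := norm_mul_le _ _
    _ ≤ (4 / 3) * (5 / 4) := by gcongr
    _ = 5 / 3 := by norm_num

lemma Phi_cont [NormOneClass A] {H : ℝ → A} {h : ℝ → ℝ} {γ κ : ℝ → ℂ} (K : Ker H h γ κ)
    {m : ℝ → A} {a : ℂ} (hmc : ContinuousOn m (Ico (0 : ℝ) 1))
    (hmb : ∀ x ∈ Ico (0 : ℝ) 1, ‖m x‖ ≤ 4 / 3)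
    {g : ℝ → A} (hg : ContinuousOn g (Ico (0 : ℝ) 1))
    (hgb : ∀ x ∈ Ico (0 : ℝ) 1, ‖g x - 1‖ ≤ 1 / 4) :
    ContinuousOn (Phi H γ κ m a g) (Ico (0 : ℝ) 1) := by
  have h1 := K.Jcont (hmc.mul hg) (G := 5 / 3) (fun s hs => mgbd (hmb s hs) (hgb s hs))
  exact (continuousOn_const.add h1).sub
    (continuousOn_const.smul ((hg.sub continuousOn_const).pow 2))

lemma Phi_bd [NormOneClass A] {H : ℝ → A} {h : ℝ → ℝ} {γ κ : ℝ → ℂ} (K : Ker H h γ κ)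
    {m : ℝ → A} {a : ℂ} (ha : ‖a‖ ≤ 1 / 2)
    (hmb : ∀ x ∈ Ico (0 : ℝ) 1, ‖m x‖ ≤ 4 / 3)
    {g : ℝ → A} (hgb : ∀ x ∈ Ico (0 : ℝ) 1, ‖g x - 1‖ ≤ 1 / 4) {x : ℝ}
    (hx : x ∈ Ico (0 : ℝ) 1) : ‖Phi H γ κ m a g x - 1‖ ≤ 1 / 4 := by
  have h1 := K.Jbd hx (g := fun s => m s * g s) (G := 5 / 3)
    (fun s hs => mgbd (hmb s hs) (hgb s hs))
  have h2 : Phi H γ κ m a g x - 1 = J H γ κ (fun s => m s * g s) x - a • (g x - 1) ^ 2 := by
    unfold Phi; ring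
  have h3 : ‖a • (g x - 1) ^ 2‖ ≤ 1 / 32 := by
    rw [norm_smul]
    calc ‖a‖ * ‖(g x - 1) ^ 2‖ ≤ ‖a‖ * ‖g x - 1‖ ^ 2 := by
          gcongr; exact norm_pow_le' _ (by norm_num)
      _ ≤ (1 / 2) * (1 / 4) ^ 2 := by
          have := hgb x hx
          gcongr
      _ = 1 / 32 := by norm_num
  rw [h2]
  calc _ ≤ ‖J H γ κ (fun s => m s * g s) x‖ + ‖a • (g x - 1) ^ 2‖ := norm_sub_le _ _
    _ ≤ 1 / 4 := by linarith

lemma Phi_lip [NormOneClass A] {H : ℝ → A} {h : ℝ → ℝ} {γ κ : ℝ → ℂ} (K : Ker H h γ κ)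
    {m : ℝ → A} {a : ℂ} (ha : ‖a‖ ≤ 1 / 2) (hmc : ContinuousOn m (Ico (0 : ℝ) 1))
    (hmb : ∀ x ∈ Ico (0 : ℝ) 1, ‖m x‖ ≤ 4 / 3)
    {g g' : ℝ → A} (hg : ContinuousOn g (Ico (0 : ℝ) 1)) (hg' : ContinuousOn g' (Ico (0 : ℝ) 1))
    (hgb : ∀ x ∈ Ico (0 : ℝ) 1, ‖g x - 1‖ ≤ 1 / 4)
    (hgb' : ∀ x ∈ Ico (0 : ℝ) 1, ‖g' x - 1‖ ≤ 1 / 4) {c : ℝ}
    (hc : ∀ s ∈ Ico (0 : ℝ) 1, ‖g s - g' s‖ ≤ c) {x : ℝ}
    (hx : x ∈ Ico (0 : ℝ) 1) : ‖Phi H γ κ m a g x - Phi H γ κ m a g' x‖ ≤ (1 / 2) * c := by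
  have hc0 : 0 ≤ c := (norm_nonneg _).trans (hc x hx)
  have h1 := K.Jsub hx (g := fun s => m s * g s) (g' := fun s => m s * g' s)
    (hmc.mul hg) (hmc.mul hg') (G := 5 / 3) (fun s hs => mgbd (hmb s hs) (hgb s hs))
    (fun s hs => mgbd (hmb s hs) (hgb' s hs)) (c := (4 / 3) * c)
    (by
      intro s hs
      rw [← mul_sub]
      calc ‖m s * (g s - g' s)‖ ≤ ‖m s‖ * ‖g s - g' s‖ := norm_mul_le _ _
        _ ≤ (4 / 3) * c := by
          have := hmb s hs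
          have := hc s hs
          gcongr)
  have h2 : Phi H γ κ m a g x - Phi H γ κ m a g' x =
      (J H γ κ (fun s => m s * g s) x - J H γ κ (fun s => m s * g' s) x) -
        a • ((g x - g' x) * ((g x - 1) + (g' x - 1))) := by
    unfold Phi
    have : (g x - g' x) * ((g x - 1) + (g' x - 1)) = (g x - 1) ^ 2 - (g' x - 1) ^ 2 := by ring
    rw [this, smul_sub]
    ring
  have h3 : ‖a • ((g x - g' x) * ((g x - 1) + (g' x - 1)))‖ ≤ (1 / 4) * c := by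
    rw [norm_smul]
    have e1 := hgb x hx
    have e2 := hgb' x hx
    have e3 := hc x hx
    have e4 : ‖(g x - 1) + (g' x - 1)‖ ≤ 1 / 2 := (norm_add_le _ _).trans (by linarith)
    calc ‖a‖ * ‖(g x - g' x) * ((g x - 1) + (g' x - 1))‖
        ≤ ‖a‖ * (‖g x - g' x‖ * ‖(g x - 1) + (g' x - 1)‖) := by
          gcongr; exact norm_mul_le _ _
      _ ≤ (1 / 2) * (c * (1 / 2)) := by gcongr
      _ = (1 / 4) * c := by ring
  rw [h2]
  calc _ ≤ ‖J H γ κ (fun s => m s * g s) x - J H γ κ (fun s => m s * g' s) x‖ +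
        ‖a • ((g x - g' x) * ((g x - 1) + (g' x - 1)))‖ := norm_sub_le _ _
    _ ≤ (1 / 2) * c := by linarith

/-- holomorphy of the operator in the parameter -/
lemma J_diff {U : Set ℂ} (hU : IsOpen U) {H : ℂ → ℝ → A} {h : ℝ → ℝ} {γ κ : ℂ → ℝ → ℂ}
    (hK : ∀ z ∈ U, Ker (H z) h (γ z) (κ z))
    (hHd : ∀ s ∈ Ioo (0 : ℝ) 1, DifferentiableOn ℂ (fun z => H z s) U)
    (hγd : ∀ x ∈ Ico (0 : ℝ) 1, DifferentiableOn ℂ (fun z => γ z x) U)
    (hκd : ∀ x ∈ Ico (0 : ℝ) 1, DifferentiableOn ℂ (fun z => κ z x) U)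
    {g : ℂ → ℝ → A} (hg : ∀ z ∈ U, ContinuousOn (g z) (Ico (0 : ℝ) 1)) {G : ℝ}
    (hG : ∀ z ∈ U, ∀ s ∈ Ico (0 : ℝ) 1, ‖g z s‖ ≤ G)
    (hgd : ∀ x ∈ Ico (0 : ℝ) 1, DifferentiableOn ℂ (fun z => g z x) U)
    {x : ℝ} (hx : x ∈ Ico (0 : ℝ) 1) :
    DifferentiableOn ℂ (fun z => J (H z) (γ z) (κ z) (g z) x) U := by
  rcases U.eq_empty_or_nonempty with rfl | ⟨z1, hz1⟩
  · exact differentiableOn_empty
  have h1 : (fun z => J (H z) (γ z) (κ z) (g z) x) =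
      fun z => ∫ s in Ioo x 1, (γ z x * κ z s) • (H z s * g z s) := by
    funext z
    exact J_eq _ _ _ _ hx
  rw [h1]
  refine hol_int hU (g := fun s => (6 / 5) * G * (h s * (1 - s) ^ (-(3 / 4) : ℝ)))
    (fun z hz => (hK z hz).aesm hx (hg z hz)) ?_ ?_ ((hK z1 hz1).gint hx _)
  · filter_upwards [ae_restrict_mem measurableSet_Ioo] with s hs
    have hs0 : s ∈ Ioo (0 : ℝ) 1 := ⟨lt_of_le_of_lt hx.1 hs.1, hs.2⟩
    have hs1 : s ∈ Ico (0 : ℝ) 1 := Ioo_subset_Ico_self hs0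
    exact ((hγd x hx).mul (hκd s hs1)).smul ((hHd s hs0).mul (hgd s hs1))
  · filter_upwards [ae_restrict_mem measurableSet_Ioo] with s hs z hz
    exact (hK z hz).bdpt hx (hG z hz) hs

/-- holomorphy of a fixed point in the parameter -/
lemma fix_diff [NormOneClass A] [CompleteSpace A] {U : Set ℂ} (hU : IsOpen U) {H : ℂ → ℝ → A} {h : ℝ → ℝ}
    {γ κ : ℂ → ℝ → ℂ}
    (hK : ∀ z ∈ U, Ker (H z) h (γ z) (κ z))
    (hHd : ∀ s ∈ Ioo (0 : ℝ) 1, DifferentiableOn ℂ (fun z => H z s) U)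
    (hγd : ∀ x ∈ Ico (0 : ℝ) 1, DifferentiableOn ℂ (fun z => γ z x) U)
    (hκd : ∀ x ∈ Ico (0 : ℝ) 1, DifferentiableOn ℂ (fun z => κ z x) U)
    {m : ℂ → ℝ → A} (hmc : ∀ z ∈ U, ContinuousOn (m z) (Ico (0 : ℝ) 1))
    (hmb : ∀ z ∈ U, ∀ s ∈ Ico (0 : ℝ) 1, ‖m z s‖ ≤ 4 / 3)
    (hmd : ∀ x ∈ Ico (0 : ℝ) 1, DifferentiableOn ℂ (fun z => m z x) U)
    {a : ℂ} (ha : ‖a‖ ≤ 1 / 2)
    {p : ℂ → ℝ → A} (hpc : ∀ z ∈ U, ContinuousOn (p z) (Ico (0 : ℝ) 1))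
    (hpb : ∀ z ∈ U, ∀ x ∈ Ico (0 : ℝ) 1, ‖p z x - 1‖ ≤ 1 / 4)
    (hp : ∀ z ∈ U, ∀ x ∈ Ico (0 : ℝ) 1, p z x = Phi (H z) (γ z) (κ z) (m z) a (p z) x)
    {x : ℝ} (hx : x ∈ Ico (0 : ℝ) 1) : DifferentiableOn ℂ (fun z => p z x) U := by
  set P : ℕ → ℂ → ℝ → A := fun n =>
    Nat.rec (fun _ _ => 1) (fun _ g z => Phi (H z) (γ z) (κ z) (m z) a (g z)) n with hPdef
  have hP0 : ∀ z x, P 0 z x = 1 := fun z x => rfl
  have hPs : ∀ n z x, P (n + 1) z x = Phi (H z) (γ z) (κ z) (m z) a (P n z) x :=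
    fun n z x => rfl
  have hPs' : ∀ n z, P (n + 1) z = Phi (H z) (γ z) (κ z) (m z) a (P n z) := fun n z => rfl
  have h1 : ∀ n, (∀ z ∈ U, ContinuousOn (P n z) (Ico (0 : ℝ) 1)) ∧
      (∀ z ∈ U, ∀ x ∈ Ico (0 : ℝ) 1, ‖P n z x - 1‖ ≤ 1 / 4) ∧
      (∀ z ∈ U, ∀ x ∈ Ico (0 : ℝ) 1, ‖P n z x - p z x‖ ≤ (1 / 2) ^ n) ∧
      (∀ x ∈ Ico (0 : ℝ) 1, DifferentiableOn ℂ (fun z => P n z x) U) := by
    intro n
    induction n with
    | zero =>
      refine ⟨fun z _ => ?_, fun z _ x _ => ?_, fun z hz x hx => ?_, fun x _ => ?_⟩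
      · exact continuousOn_const (c := (1 : A))
      · rw [hP0]; simp
      · rw [hP0, norm_sub_rev, pow_zero]
        exact (hpb z hz x hx).trans (by norm_num)
      · exact differentiableOn_const (1 : A)
    | succ n ih =>
      obtain ⟨i1, i2, i3, i4⟩ := ih
      refine ⟨fun z hz => ?_, fun z hz x hx => ?_, fun z hz x hx => ?_, fun x hx => ?_⟩
      · rw [hPs']
        exact Phi_cont (hK z hz) (hmc z hz) (hmb z hz) (i1 z hz) (i2 z hz)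
      · rw [hPs]
        exact Phi_bd (hK z hz) ha (hmb z hz) (i2 z hz) hx
      · rw [hPs, hp z hz x hx]
        have := Phi_lip (hK z hz) ha (hmc z hz) (hmb z hz) (i1 z hz) (hpc z hz) (i2 z hz)
          (hpb z hz) (i3 z hz) hx
        calc _ ≤ (1 / 2) * (1 / 2 : ℝ) ^ n := this
          _ = (1 / 2) ^ (n + 1) := by ring
      · have e1 : (fun z => P (n + 1) z x) = fun z =>
            1 + J (H z) (γ z) (κ z) (fun s => m z s * P n z s) x - a • (P n z x - 1) ^ 2 := by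
          funext z; rfl
        rw [e1]
        have e2 := J_diff hU hK hHd hγd hκd (g := fun z s => m z s * P n z s)
          (fun z hz => (hmc z hz).mul (i1 z hz)) (G := 5 / 3)
          (fun z hz s hs => mgbd (hmb z hz s hs) (i2 z hz s hs))
          (fun x hx => (hmd x hx).mul (i4 x hx)) hx
        exact ((differentiableOn_const (1 : A)).add e2).sub
          (((i4 x hx).sub (differentiableOn_const (1 : A))).pow 2 |>.const_smul a)
  have h2 : TendstoUniformlyOn (fun n z => P n z x) (fun z => p z x) atTop U := by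
    rw [Metric.tendstoUniformlyOn_iff]
    intro ε hε
    have h3 : Tendsto (fun n : ℕ => (1 / 2 : ℝ) ^ n) atTop (𝓝 0) :=
      tendsto_pow_atTop_nhds_zero_of_lt_one (by norm_num) (by norm_num)
    filter_upwards [h3.eventually (gt_mem_nhds hε)] with n hn z hz
    rw [dist_comm, dist_eq_norm]
    exact ((h1 n).2.2.1 z hz x hx).trans_lt hn
  exact h2.tendstoLocallyUniformlyOn.differentiableOn
    (Eventually.of_forall fun n => (h1 n).2.2.2 x hx) hU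

lemma two_quarter : (2 : ℝ) ^ (1 / 4 : ℝ) ≤ 6 / 5 := by
  have h1 : (2 : ℝ) ≤ (6 / 5 : ℝ) ^ (4 : ℝ) := by
    have : (6 / 5 : ℝ) ^ (4 : ℝ) = (6 / 5 : ℝ) ^ (4 : ℕ) := by
      rw [← Real.rpow_natCast]; norm_num
    rw [this]; norm_num
  calc (2 : ℝ) ^ (1 / 4 : ℝ) ≤ ((6 / 5 : ℝ) ^ (4 : ℝ)) ^ (1 / 4 : ℝ) :=
        Real.rpow_le_rpow (by norm_num) h1 (by norm_num)
    _ = 6 / 5 := by rw [← Real.rpow_mul (by norm_num)]; norm_num

lemma Dinv (hD : S_D) {b : ℂ} (hb : b ∈ Om) {x : ℝ} (hx : x ∈ Ico (0 : ℝ) 1) :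
    ‖(D b x)⁻¹‖ ≤ (1 - x) ^ (-(1 / 2) : ℝ) := by
  have h1 := (hD.1 b hb x hx).2.2.1
  have h0 : 0 < 1 - x := by linarith [hx.2]
  have h2 : Real.sqrt (1 - x) ≤ ‖D b x‖ := Real.sqrt_le_iff.2 ⟨norm_nonneg _, h1⟩
  rw [norm_inv, Real.rpow_neg h0.le, ← Real.sqrt_eq_rpow]
  exact inv_anti₀ (Real.sqrt_pos.2 h0) h2

lemma rpow_mono {x s : ℝ} (hx : x ∈ Ico (0 : ℝ) 1) (hs : s ∈ Ico x 1) :
    (1 - x) ^ (-(1 / 2) : ℝ) ≤ (1 - s) ^ (-(3 / 4) : ℝ) := by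
  have h0 : 0 < 1 - s := by linarith [hs.2]
  have h0' : 0 < 1 - x := by linarith [hx.2]
  calc (1 - x) ^ (-(1 / 2) : ℝ) ≤ (1 - s) ^ (-(1 / 2) : ℝ) :=
        Real.rpow_le_rpow_of_nonpos h0 (by linarith [hs.1]) (by norm_num)
    _ ≤ (1 - s) ^ (-(3 / 4) : ℝ) :=
        Real.rpow_le_rpow_of_exponent_ge h0 (by linarith [hs.1, hx.1]) (by norm_num)

lemma Dcont (hD : S_D) {b : ℂ} (hb : b ∈ Om) : ContinuousOn (D b) (Ico (0 : ℝ) 1) := by
  have h1 := hD.2.2.1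
  have h2 : ContinuousOn (fun x : ℝ => (b, x)) (Ico (0 : ℝ) 1) := by fun_prop
  refine ContinuousOn.congr (h1.comp h2 (fun x hx => Set.mk_mem_prod hb hx)) ?_
  intro x _
  simp only [Function.comp_apply]

lemma Dne (hD : S_D) {b : ℂ} (hb : b ∈ Om) {x : ℝ} (hx : x ∈ Ico (0 : ℝ) 1) : D b x ≠ 0 :=
  (hD.1 b hb x hx).1

lemma Ddiff (hD : S_D) {U : Set ℂ} {b : ℂ → ℂ} (hb : ∀ z ∈ U, b z ∈ Om)
    (hbd : DifferentiableOn ℂ b U) {x : ℝ} (hx : x ∈ Ico (0 : ℝ) 1) :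
    DifferentiableOn ℂ (fun z => D (b z) x) U := by
  intro z hz
  exact (hD.2.2.2.1 x hx (b z) (hb z hz)).differentiableAt.comp_differentiableWithinAt z
    (hbd z hz)

lemma half_int : IntegrableOn (fun x : ℝ => (1 - x) ^ (-(1 / 2) : ℝ)) (Ioo (0 : ℝ) 1) := by
  have h1 : IntervalIntegrable (fun x : ℝ => x ^ (-(1 / 2) : ℝ)) volume 0 1 :=
    intervalIntegral.intervalIntegrable_rpow' (by norm_num)
  have h2 := h1.comp_sub_left 1
  simp only [sub_zero, sub_self] at h2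
  have h3 := h2.symm
  rw [intervalIntegrable_iff_integrableOn_Ioc_of_le zero_le_one,
    integrableOn_Ioc_iff_integrableOn_Ioo] at h3
  exact h3

omit [NormedAlgebra ℂ A] in
lemma qbd [NormOneClass A] {p q : A} (hp : ‖p - 1‖ ≤ 1 / 4) (h : p * q = 1) : ‖q‖ ≤ 4 / 3 := by
  have h1 : q = 1 - (p - 1) * q := by
    have : (p - 1) * q = p * q - q := by ring
    rw [this, h]; ring
  have h2 : ‖q‖ ≤ 1 + (1 / 4) * ‖q‖ := by
    calc ‖q‖ = ‖1 - (p - 1) * q‖ := by rw [← h1]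
      _ ≤ ‖(1 : A)‖ + ‖(p - 1) * q‖ := norm_sub_le _ _
      _ ≤ 1 + ‖p - 1‖ * ‖q‖ := by rw [norm_one]; gcongr; exact norm_mul_le _ _
      _ ≤ 1 + (1 / 4) * ‖q‖ := by gcongr
  linarith

theorem th (hD : S_D) (hE : S_EX) (hUps : S_UPS) : S_HOL := by
  intro A _ _ _ _ U H h b hU hb hbd hm hd hh hi hl
  have hN : ∀ z ∈ U, NB (H z) (1 / 20) := by
    intro z hz
    have e1 : ∀ s ∈ Ioo (0 : ℝ) 1, ‖H z s‖ * (1 - s) ^ (-(3 / 4) : ℝ) ≤
        h s * (1 - s) ^ (-(3 / 4) : ℝ) := fun s hs =>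
      mul_le_mul_of_nonneg_right (hh z hz s hs) (rpow_pos' hs.2).le
    have e2 : IntegrableOn (fun s : ℝ => ‖H z s‖ * (1 - s) ^ (-(3 / 4) : ℝ)) (Ioo (0 : ℝ) 1) := by
      refine hi.mono' ((hm z hz).norm.mul ?_) ?_
      · apply Measurable.aestronglyMeasurable
        fun_prop
      · filter_upwards [ae_restrict_mem measurableSet_Ioo] with s hs
        rw [Real.norm_of_nonneg (mul_nonneg (norm_nonneg _) (rpow_pos' hs.2).le)]
        exact e1 s hs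
    refine ⟨hm z hz, e2, ?_⟩
    exact (setIntegral_mono_on e2 hi measurableSet_Ioo e1).trans hl
  have hex : ∀ z, ∃ s : (ℝ → A) × (ℝ → A) × (ℝ → A), z ∈ U → Sol (H z) (b z) s.1 s.2.1 s.2.2 := by
    intro z
    by_cases hz : z ∈ U
    · obtain ⟨p, q, E, hs⟩ := hE A (H z) (b z) (hN z hz) (hb z hz)
      exact ⟨(p, q, E), fun _ => hs⟩
    · exact ⟨(fun _ => 0, fun _ => 0, fun _ => 0), fun h => absurd h hz⟩
  choose S hS using hex
  set p : ℂ → ℝ → A := fun z => (S z).1 with hpdef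
  set q : ℂ → ℝ → A := fun z => (S z).2.1 with hqdef
  set E : ℂ → ℝ → A := fun z => (S z).2.2 with hEdef
  have hSol : ∀ z ∈ U, Sol (H z) (b z) (p z) (q z) (E z) := hS
  have h00 : (0 : ℝ) ∈ Ico (0 : ℝ) 1 := ⟨le_rfl, by norm_num⟩
  -- the first equation
  have hK1 : ∀ z ∈ U, Ker (H z) h (fun x => (D (b z) x)⁻¹ ^ 2) (D (b z)) := by
    intro z hz
    refine ⟨hm z hz, hh z hz, hi, hl, ?_, Dcont hD (hb z hz), ?_, ?_⟩
    · exact ((Dcont hD (hb z hz)).inv₀ (fun x hx => Dne hD (hb z hz) hx)).pow 2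
    · exact pow_ne_zero _ (inv_ne_zero (Dne hD (hb z hz) h00))
    · intro x hx s hs
      have e1 := hD.2.1 (b z) (hb z hz) x hx s ⟨hs.1, hs.2.le⟩
      have e2 := Dinv hD (hb z hz) hx
      have e3 := rpow_mono hx hs
      have e4 : ‖D (b z) x‖ ≠ 0 := norm_ne_zero_iff.2 (Dne hD (hb z hz) hx)
      have e5 := two_quarter
      calc ‖(D (b z) x)⁻¹ ^ 2 * D (b z) s‖ = ‖(D (b z) x)⁻¹‖ ^ 2 * ‖D (b z) s‖ := by
            rw [norm_mul, norm_pow]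
        _ ≤ ‖(D (b z) x)⁻¹‖ ^ 2 * ((6 / 5) * ‖D (b z) x‖) := by
            gcongr
            exact e1.trans (by gcongr)
        _ = (6 / 5) * ‖(D (b z) x)⁻¹‖ := by
            rw [norm_inv]; field_simp
        _ ≤ (6 / 5) * (1 - s) ^ (-(3 / 4) : ℝ) := by gcongr; exact e2.trans e3
  have hDd : ∀ x ∈ Ico (0 : ℝ) 1, DifferentiableOn ℂ (fun z => D (b z) x) U :=
    fun x hx => Ddiff hD hb hbd hx
  have hDi : ∀ x ∈ Ico (0 : ℝ) 1, DifferentiableOn ℂ (fun z => (D (b z) x)⁻¹) U :=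
    fun x hx => (hDd x hx).inv (fun z hz => Dne hD (hb z hz) hx)
  have hpd : ∀ x ∈ Ico (0 : ℝ) 1, DifferentiableOn ℂ (fun z => p z x) U := by
    intro x hx
    refine fix_diff hU (H := H) (h := h) (γ := fun z x => (D (b z) x)⁻¹ ^ 2)
      (κ := fun z => D (b z)) hK1 hd (fun x hx => (hDi x hx).pow 2) hDd
      (m := fun _ _ => 1) (fun z _ => continuousOn_const) (fun z _ s _ => by norm_num)
      (fun x _ => differentiableOn_const _) (a := 1 / 2) (by norm_num)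
      (fun z hz => (hSol z hz).cp) (fun z hz => (hSol z hz).bp) ?_ hx
    intro z hz x hx
    have e1 := (hSol z hz).ep x hx
    unfold Phi J
    simp only [one_mul]
    have e2 : (2 * (D (b z) x)⁻¹ ^ 2) • (∫ s in x..1, D (b z) s • (H z s * p z s)) =
        (2 : ℂ) • ((D (b z) x)⁻¹ ^ 2 • ∫ s in x..1, D (b z) s • (H z s * p z s)) := by
      rw [mul_smul]
    rw [e2] at e1
    have e3 : p z x = 1 + (1 / 2 : ℂ) • (p z x ^ 2 - 1) - (1 / 2 : ℂ) • (p z x - 1) ^ 2 := by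
      rw [add_sub_assoc, ← smul_sub]
      have : p z x ^ 2 - 1 - (p z x - 1) ^ 2 = (2 : ℂ) • (p z x - 1) := by
        rw [two_smul]; ring
      rw [this, smul_smul]
      norm_num
    have e4 : p z x ^ 2 - 1 =
        (2 : ℂ) • ((D (b z) x)⁻¹ ^ 2 • ∫ s in x..1, D (b z) s • (H z s * p z s)) := by
      rw [e1]; ring
    rw [e4, smul_smul] at e3
    norm_num at e3 ⊢
    exact e3
  have hqd : ∀ x ∈ Ico (0 : ℝ) 1, DifferentiableOn ℂ (fun z => q z x) U := by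
    intro x hx z hz
    have e1 : ∀ w ∈ U, q w x = Ring.inverse (p w x) := by
      intro w hw
      have h1 := (hSol w hw).pq x hx
      have h2 : IsUnit (p w x) := IsUnit.of_mul_eq_one _ h1
      have h3 := Ring.mul_inverse_cancel _ h2
      calc q w x = q w x * (p w x * Ring.inverse (p w x)) := by rw [h3, mul_one]
        _ = (p w x * q w x) * Ring.inverse (p w x) := by ring
        _ = Ring.inverse (p w x) := by rw [h1, one_mul]
    have h2 : IsUnit (p z x) := IsUnit.of_mul_eq_one _ ((hSol z hz).pq x hx)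
    have e2 : DifferentiableAt ℂ (Ring.inverse : A → A) (p z x) := differentiableAt_inverse h2
    refine DifferentiableWithinAt.congr
      (e2.comp_differentiableWithinAt z (hpd x hx z hz)) (fun w hw => ?_) ?_
    · simp only [Function.comp_apply]; exact e1 w hw
    · simp only [Function.comp_apply]; exact e1 z hz
  have hqb : ∀ z ∈ U, ∀ x ∈ Ico (0 : ℝ) 1, ‖q z x‖ ≤ 4 / 3 := fun z hz x hx =>
    qbd ((hSol z hz).bp x hx) ((hSol z hz).pq x hx)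
  -- the second equation
  have hK2 : ∀ z ∈ U, Ker (H z) h (fun _ => 1) (fun x => (D (b z) x)⁻¹) := by
    intro z hz
    refine ⟨hm z hz, hh z hz, hi, hl, continuousOn_const, ?_, one_ne_zero, ?_⟩
    · exact (Dcont hD (hb z hz)).inv₀ (fun x hx => Dne hD (hb z hz) hx)
    · intro x hx s hs
      have hs0 : s ∈ Ico (0 : ℝ) 1 := ⟨hx.1.trans hs.1, hs.2⟩
      have e2 := Dinv hD (hb z hz) hs0
      have e3 := rpow_mono hs0 (s := s) ⟨le_rfl, hs.2⟩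
      have e6 := rpow_pos' hs.2
      rw [one_mul]
      linarith
  have hEd : ∀ x ∈ Ico (0 : ℝ) 1, DifferentiableOn ℂ (fun z => E z x) U := by
    intro x hx
    refine fix_diff hU (H := H) (h := h) (γ := fun _ _ => 1)
      (κ := fun z x => (D (b z) x)⁻¹) hK2 hd (fun x hx => differentiableOn_const _) hDi
      (m := q) (fun z hz => (hSol z hz).cq) hqb hqd (a := 0) (by norm_num)
      (fun z hz => (hSol z hz).cE) (fun z hz => (hSol z hz).bE) ?_ hx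
    intro z hz x hx
    have e1 := (hSol z hz).eE x hx
    unfold Phi J
    rw [zero_smul, sub_zero, one_smul]
    simp only [← mul_assoc]
    exact e1
  have hEb : ∀ z ∈ U, ∀ x ∈ Ico (0 : ℝ) 1, ‖E z x‖ ≤ 5 / 4 := fun z hz x hx =>
    gbd ((hSol z hz).bE x hx)
  constructor
  · -- Ups
    have e1 : ∀ z ∈ U, Ups (H z) (b z) = (D (b z) 0)⁻¹ • (E z 0 * q z 0) -
        ∫ x in Ioo (0 : ℝ) 1, ((1 - (x : ℂ)) * (D (b z) x)⁻¹ ^ 3) • (E z x * q z x ^ 3) := by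
      intro z hz
      rw [(hUps A (H z) (b z) (p z) (q z) (E z) (hN z hz) (hb z hz) (hSol z hz)).1]
      unfold upsOf
      rw [intervalIntegral.integral_of_le zero_le_one, ioo_ioc]
    refine DifferentiableOn.congr (f := fun z => (D (b z) 0)⁻¹ • (E z 0 * q z 0) -
        ∫ x in Ioo (0 : ℝ) 1, ((1 - (x : ℂ)) * (D (b z) x)⁻¹ ^ 3) • (E z x * q z x ^ 3)) ?_ e1
    refine ((hDi 0 h00).smul ((hEd 0 h00).mul (hqd 0 h00))).sub ?_
    refine hol_int hU (g := fun x => 3 * (1 - x) ^ (-(1 / 2) : ℝ)) ?_ ?_ ?_ (half_int.const_mul 3)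
    · intro z hz
      apply ContinuousOn.aestronglyMeasurable _ measurableSet_Ioo
      refine ContinuousOn.smul (ContinuousOn.mul (by fun_prop) ?_) ?_
      · exact ((Dcont hD (hb z hz)).inv₀ (fun x hx => Dne hD (hb z hz) hx)).pow 3 |>.mono
          Ioo_subset_Ico_self
      · exact ((hSol z hz).cE.mul ((hSol z hz).cq.pow 3)).mono Ioo_subset_Ico_self
    · filter_upwards [ae_restrict_mem measurableSet_Ioo] with s hs
      have hs1 : s ∈ Ico (0 : ℝ) 1 := Ioo_subset_Ico_self hs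
      exact (((hDi s hs1).pow 3).const_mul _).smul ((hEd s hs1).mul ((hqd s hs1).pow 3))
    · filter_upwards [ae_restrict_mem measurableSet_Ioo] with s hs z hz
      have hs1 : s ∈ Ico (0 : ℝ) 1 := Ioo_subset_Ico_self hs
      have f1 := Dinv hD (hb z hz) hs1
      have f2 := hEb z hz s hs1
      have f3 := hqb z hz s hs1
      have f0 : 0 < 1 - s := by linarith [hs.2]
      have f4 : ‖(1 - (s : ℂ))‖ = 1 - s := by
        rw [← Complex.ofReal_one, ← Complex.ofReal_sub, Complex.norm_real,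
          Real.norm_of_nonneg f0.le]
      have f5 : (1 - s) * ((1 - s) ^ (-(1 / 2) : ℝ)) ^ 3 = (1 - s) ^ (-(1 / 2) : ℝ) := by
        have : ((1 - s) ^ (-(1 / 2) : ℝ)) ^ 3 = (1 - s) ^ (-(3 / 2) : ℝ) := by
          rw [← Real.rpow_natCast, ← Real.rpow_mul f0.le]; norm_num
        rw [this]
        nth_rewrite 1 [← Real.rpow_one (1 - s)]
        rw [← Real.rpow_add f0]; norm_num
      have f6 : 0 < (1 - s) ^ (-(1 / 2) : ℝ) := Real.rpow_pos_of_pos f0 _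
      calc ‖((1 - (s : ℂ)) * (D (b z) s)⁻¹ ^ 3) • (E z s * q z s ^ 3)‖
          ≤ ((1 - s) * ‖(D (b z) s)⁻¹‖ ^ 3) * (‖E z s‖ * ‖q z s‖ ^ 3) := by
            rw [norm_smul, norm_mul, norm_pow, f4]
            gcongr
            exact (norm_mul_le _ _).trans (by gcongr; exact norm_pow_le' _ (by norm_num))
        _ ≤ ((1 - s) * ((1 - s) ^ (-(1 / 2) : ℝ)) ^ 3) * ((5 / 4) * (4 / 3) ^ 3) := by gcongr
        _ = (1 - s) ^ (-(1 / 2) : ℝ) * (80 / 27) := by rw [f5]; norm_num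
        _ ≤ 3 * (1 - s) ^ (-(1 / 2) : ℝ) := by linarith
  · -- Tau
    have e1 : ∀ z ∈ U, Tau (H z) (b z) =
        ∫ x in Ioo (0 : ℝ) 1, (D (b z) x)⁻¹ • q z x := by
      intro z hz
      rw [(hUps A (H z) (b z) (p z) (q z) (E z) (hN z hz) (hb z hz) (hSol z hz)).2]
      unfold tauOf
      rw [intervalIntegral.integral_of_le zero_le_one, ioo_ioc]
    refine DifferentiableOn.congr (f := fun z =>
        ∫ x in Ioo (0 : ℝ) 1, (D (b z) x)⁻¹ • q z x) ?_ e1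
    refine hol_int hU (g := fun x => 2 * (1 - x) ^ (-(1 / 2) : ℝ)) ?_ ?_ ?_ (half_int.const_mul 2)
    · intro z hz
      apply ContinuousOn.aestronglyMeasurable _ measurableSet_Ioo
      refine ContinuousOn.smul ?_ ?_
      · exact ((Dcont hD (hb z hz)).inv₀ (fun x hx => Dne hD (hb z hz) hx)).mono
          Ioo_subset_Ico_self
      · exact (hSol z hz).cq.mono Ioo_subset_Ico_self
    · filter_upwards [ae_restrict_mem measurableSet_Ioo] with s hs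
      have hs1 : s ∈ Ico (0 : ℝ) 1 := Ioo_subset_Ico_self hs
      exact (hDi s hs1).smul (hqd s hs1)
    · filter_upwards [ae_restrict_mem measurableSet_Ioo] with s hs z hz
      have hs1 : s ∈ Ico (0 : ℝ) 1 := Ioo_subset_Ico_self hs
      have f1 := Dinv hD (hb z hz) hs1
      have f3 := hqb z hz s hs1
      have f0 : 0 < 1 - s := by linarith [hs.2]
      have f6 : 0 < (1 - s) ^ (-(1 / 2) : ℝ) := Real.rpow_pos_of_pos f0 _
      calc ‖(D (b z) s)⁻¹ • q z s‖ = ‖(D (b z) s)⁻¹‖ * ‖q z s‖ := norm_smul _ _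
        _ ≤ (1 - s) ^ (-(1 / 2) : ℝ) * (4 / 3) := by gcongr
        _ ≤ 2 * (1 - s) ^ (-(1 / 2) : ℝ) := by linarith

end Pool.Agent.W29.UN.Hol
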